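import Pool.Agent.SGP.Stmts

/-!
THX: planar graphs and Apollonian paths on one point set.
-/

noncomputable section

namespace Pool.Agent.SGP.H99

open Pool.Agent.SGE Pool.Agent.SGP

theorem a2_of_adj {n : ℕ} {G : SimpleGraph (Fin n)} {σ : Equiv.Perm (Fin n)} {w : Fin n → Fin 3}
    (hw : ∀ i j l, i < l → l < j → G.Adj (σ i) (σ j) → w l ≠ w i) (x y : Fin n)
    (h : G.Adj x y) :
    A2 n (fun i => if h : i < n then w ⟨i, h⟩ else 0) (Sum.inr ((σ.symm x : Fin n) : ℕ))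
      (Sum.inr ((σ.symm y : Fin n) : ℕ)) := by
  obtain ⟨i, rfl⟩ := σ.surjective x
  obtain ⟨j, rfl⟩ := σ.surjective y
  rw [Equiv.symm_apply_apply, Equiv.symm_apply_apply]
  have hij : i ≠ j := fun e => by
    rw [e] at h
    exact G.irrefl h
  refine ⟨i.2, j.2, ?_⟩
  rcases lt_or_gt_of_ne hij with hlt | hlt
  · refine Or.inl ⟨hlt, ?_⟩
    intro l h1 h2
    have hl : l < n := lt_trans h2 j.2
    have h3 := hw i j ⟨l, hl⟩ h1 h2 h
    simpa only [dif_pos hl, dif_pos i.2] using h3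
  · refine Or.inr ⟨hlt, ?_⟩
    intro l h1 h2
    have hl : l < n := lt_trans h2 i.2
    have h3 := hw j i ⟨l, hl⟩ h1 h2 h.symm
    simpa only [dif_pos hl, dif_pos j.2] using h3

theorem thx (hM : MaiStmt) (hG : GexStmt) (hD : DrwStmt) : ThxStmt := by
  classical
  intro n G₁ G₂ h1 hA
  obtain ⟨E, F, hN, hE, hR⟩ := hG G₁ h1
  obtain ⟨σ, w, hw⟩ := hA
  have hInn : Inn (Sum.inr 0) (Sum.inr 1) (Sum.inr 2) E =
      Set.range (Sum.inl : Fin n → Fin n ⊕ Fin 3) := by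
    ext x
    constructor
    · rintro ⟨h0, h1, h2, -⟩
      rcases x with x | x
      · exact ⟨x, rfl⟩
      · exfalso
        fin_cases x
        · exact h0 rfl
        · exact h1 rfl
        · exact h2 rfl
    · rintro ⟨v, rfl⟩
      exact ⟨Sum.inl_ne_inr, Sum.inl_ne_inr, Sum.inl_ne_inr, hR _⟩
  have hcard : (Inn (Sum.inr 0) (Sum.inr 1) (Sum.inr 2) E).ncard = n := by
    rw [hInn, ← Set.image_univ, Set.ncard_image_of_injective _ Sum.inl_injective,
      Set.ncard_univ, Nat.card_eq_fintype_card, Fintype.card_fin]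
  obtain ⟨f, π, h⟩ := hM n (fun i => if h : i < n then w ⟨i, h⟩ else 0) hN hcard
  have d1 : Draw G₁ (fun v => f (Sum.inl v)) := by
    refine hD (f (Sum.inr 0)) ?_ ?_ ?_
    · intro x y t hxy hxt hyt
      exact h.gp _ _ _ (hR _) (hR _) (hR _) (fun e => hxy (Sum.inl_injective e))
        (fun e => hxt (Sum.inl_injective e)) (fun e => hyt (Sum.inl_injective e))
    · intro x y hxy
      exact h.gp _ _ _ (hR _) (hR _) (hR _) (fun e => hxy (Sum.inl_injective e))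
        Sum.inl_ne_inr Sum.inl_ne_inr
    · intro x y u t hxy hut
      exact h.cr1 _ _ _ _ (hE _ _ hxy) (hE _ _ hut)
  have hπ : ∀ i : Fin n, ∃ v : Fin n, π i = Sum.inl v := by
    intro i
    have h2 := h.pin i i.2
    rw [hInn] at h2
    obtain ⟨v, hv⟩ := h2
    exact ⟨v, hv.symm⟩
  have hπn : ∀ i j : Fin n, i ≠ j → π i ≠ π j := fun i j hij e =>
    hij (Fin.ext (h.pij i j i.2 j.2 e))
  have hσn : ∀ x y : Fin n, x ≠ y → π ((σ.symm x : Fin n) : ℕ) ≠ π ((σ.symm y : Fin n) : ℕ) :=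
    fun x y hxy => hπn _ _ (fun e => hxy (σ.symm.injective e))
  have d2 : Draw G₂ (fun v => f (π ((σ.symm v : Fin n) : ℕ))) := by
    refine hD (f (Sum.inr 0)) ?_ ?_ ?_
    · intro x y t hxy hxt hyt
      exact h.gp _ _ _ (hR _) (hR _) (hR _) (hσn _ _ hxy) (hσn _ _ hxt) (hσn _ _ hyt)
    · intro x y hxy
      refine h.gp _ _ _ (hR _) (hR _) (hR _) (hσn _ _ hxy) ?_ ?_
      · obtain ⟨v, hv⟩ := hπ (σ.symm x)
        rw [hv]
        exact Sum.inl_ne_inr
      · obtain ⟨v, hv⟩ := hπ (σ.symm y)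
        rw [hv]
        exact Sum.inl_ne_inr
    · intro x y u t hxy hut
      exact h.cr2 _ _ _ _ (a2_of_adj hw x y hxy) (a2_of_adj hw u t hut)
  refine ⟨Finset.univ.image (fun v => f (Sum.inl v)), ?_, ⟨_, d1, ?_⟩, ⟨_, d2, ?_⟩⟩
  · rw [Finset.card_image_of_injective _ d1.inj, Finset.card_univ, Fintype.card_fin]
  · intro v
    exact Finset.mem_image_of_mem _ (Finset.mem_univ v)
  · intro v
    obtain ⟨u, hu⟩ := hπ (σ.symm v)
    show f (π ((σ.symm v : Fin n) : ℕ)) ∈ _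
    rw [hu]
    exact Finset.mem_image_of_mem (fun v => f (Sum.inl v)) (Finset.mem_univ u)

end Pool.Agent.SGP.H99
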